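import Mathlib
import Pool.Agent.H399R2.Run
import Pool.Agent.H399R2.Abs

set_option autoImplicit false

open Pool.Agent.H399R2

namespace Pool.Agent.Results.MP_e7655a_nt.LongDescent

/-- Consecutive zeros `n < n'` of `a_p`: every prime factor `r` of `n'` or of
`q_p(n') = ((n'+1)^p - 1)/n'` satisfies `2 r > 5 (n'-n-1) - 3 ((n+1)^p - 1)`; in particular `n'` is
prime after a long descent, and for `p = 2` both `n'` and `n' + 2` are. -/
theorem result :
    ∀ p : ℕ, p.Prime → ∀ a : ℕ → ℤ, a 1 = 1 →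
      (∀ n : ℕ, 2 ≤ n →
        a n = |a (n - 1) - ((Int.gcd (a (n - 1)) ((n : ℤ) ^ p - 1) : ℕ) : ℤ)|) →
      ∀ n n' : ℕ, 1 ≤ n → n < n' → a n = 0 → a n' = 0 → (∀ k : ℕ, n < k → k < n' → a k ≠ 0) →
        (∀ r : ℕ, r.Prime → (r ∣ n' ∨ r ∣ ((n' + 1) ^ p - 1) / n') →
          5 * (n' - n - 1) < 3 * ((n + 1) ^ p - 1) + 2 * r) ∧
        (Nat.Prime n' ∨ 5 * (n' - n - 1) < 3 * ((n + 1) ^ p - 1) + 2 * Nat.sqrt n') ∧
        (p = 2 → (Nat.Prime n' ∧ Nat.Prime (((n' + 1) ^ p - 1) / n')) ∨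
          5 * (n' - n - 1) < 3 * ((n + 1) ^ p - 1) + 2 * Nat.sqrt (n' + 2)) := by
  intro p hp a ha1 ha n n' hn hnn' han han' hne
  set V : ℕ → ℤ := fun n => (n : ℤ) ^ p - 1 with hVdef
  have hseg : Seg (fun k => (a k).natAbs) V (n + 1) n' :=
    seg_of_zeros (V := V) (by rw [ha1]; norm_num) ha (by omega) (by omega)
      (fun k h1 h2 => hne k (by omega) h2)
  have hpow1 : ∀ k : ℕ, 1 ≤ k → 1 ≤ k ^ p := fun k hk => Nat.one_le_pow _ _ hk
  have hVnat : ∀ k : ℕ, 1 ≤ k → V k = ((k ^ p - 1 : ℕ) : ℤ) := by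
    intro k hk
    simp only [hVdef]
    rw [Nat.cast_sub (hpow1 k hk)]; push_cast; ring
  have hstart : (a (n + 1)).natAbs = (n + 1) ^ p - 1 := by
    rw [ha (n + 1) (by omega), Nat.add_sub_cancel, han]
    simp only [Int.gcd_zero_left, zero_sub, abs_neg]
    rw [Nat.abs_cast, Int.natAbs_natCast]
    have := hVnat (n + 1) (by omega)
    simp only [hVdef] at this
    rw [this, Int.natAbs_natCast]
  obtain ⟨l, hsl, hle, hrun, hineq⟩ := hseg.final (by rw [han']; rfl) 1 le_rfl
    (by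
      intro r hr k hk h
      rw [one_mul] at h
      have h2 : (r : ℤ) ∣ V (k + r) - V k := by
        simp only [hVdef]
        have : ((k + r : ℕ) : ℤ) ^ p - 1 - ((k : ℤ) ^ p - 1) = ((k + r : ℕ) : ℤ) ^ p - (k : ℤ) ^ p := by
          ring
        rw [this]
        have h3 := sub_dvd_pow_sub_pow ((k + r : ℕ) : ℤ) (k : ℤ) p
        refine dvd_trans ?_ h3
        push_cast
        simp
      have h4 := dvd_sub h h2
      simpa using h4)
    (by
      right
      refine ⟨1, ?_⟩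
      intro k hk
      have hpar : (V k) % 2 = ((k : ℤ) - 1) % 2 := by
        simp only [hVdef]
        have h1 : ((k : ℤ) ^ p) % 2 = (k : ℤ) % 2 := by
          rcases Int.emod_two_eq_zero_or_one (k : ℤ) with h | h
          · have h2 : (2 : ℤ) ∣ (k : ℤ) ^ p :=
              dvd_pow (Int.dvd_of_emod_eq_zero h) hp.ne_zero
            omega
          · have h2 : Odd (k : ℤ) := Int.odd_iff.mpr h
            have h3 : Odd ((k : ℤ) ^ p) := h2.pow
            rw [Int.odd_iff.mp h3, h]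
        omega
      constructor
      · intro h
        omega
      · intro h
        omega)
  have hn'1 : 1 ≤ n' := by omega
  have hdvdn : n' ∣ (n' + 1) ^ p - 1 := by
    have := Nat.sub_dvd_pow_sub_pow (n' + 1) 1 p
    simpa using this
  have key : ∀ r : ℕ, r.Prime → (r ∣ n' ∨ r ∣ ((n' + 1) ^ p - 1) / n') → n' - l < r := by
    intro r hr hdvd0
    have hdvd : r ∣ (n' + 1) ^ p - 1 := by
      rcases hdvd0 with h | h
      · exact h.trans hdvdn
      · exact h.trans (Nat.div_dvd_of_dvd hdvdn)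
    by_contra hcon
    push Not at hcon
    obtain ⟨h1, h2⟩ := hrun (n' - r) (by omega) (by have := hr.pos; omega)
    have h3 : (a (n' - r)).natAbs = r := by omega
    rw [h3] at h1
    have h4 : (r : ℤ) ∣ V (n' - r + 1) := by
      have e0 : (r : ℤ) ∣ V (n' + 1) := by
        rw [hVnat _ (by omega)]
        exact Int.natCast_dvd_natCast.mpr hdvd
      have e1 : (r : ℤ) ∣ V (n' + 1) - V (n' - r + 1) := by
        simp only [hVdef]
        have : ((n' + 1 : ℕ) : ℤ) ^ p - 1 - (((n' - r + 1 : ℕ) : ℤ) ^ p - 1)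
            = ((n' + 1 : ℕ) : ℤ) ^ p - ((n' - r + 1 : ℕ) : ℤ) ^ p := by ring
        rw [this]
        have h3 := sub_dvd_pow_sub_pow ((n' + 1 : ℕ) : ℤ) ((n' - r + 1 : ℕ) : ℤ) p
        refine dvd_trans ?_ h3
        have : ((n' + 1 : ℕ) : ℤ) - ((n' - r + 1 : ℕ) : ℤ) = r := by omega
        rw [this]
      have e2 := dvd_sub e0 e1
      simpa using e2
    have h5 : (r : ℤ) ∣ (Int.gcd (r : ℤ) (V (n' - r + 1)) : ℤ) := Int.dvd_coe_gcd (dvd_refl _) h4
    rw [h1] at h5
    have h6 : r ∣ 1 := by exact_mod_cast h5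
    exact hr.one_lt.ne' (Nat.dvd_one.mp h6)
  have fin : ∀ r : ℕ, r.Prime → (r ∣ n' ∨ r ∣ ((n' + 1) ^ p - 1) / n') →
      5 * (n' - n - 1) < 3 * ((n + 1) ^ p - 1) + 2 * r := by
    intro r hr h1
    have h3 := key r hr h1
    rw [hstart] at hineq
    omega
  have hnp : ¬ Nat.Prime n' → 5 * (n' - n - 1) < 3 * ((n + 1) ^ p - 1) + 2 * Nat.sqrt n' := by
    intro h
    have h1 := fin (Nat.minFac n') (Nat.minFac_prime (by omega)) (Or.inl (Nat.minFac_dvd _))
    have h2 : Nat.minFac n' ≤ Nat.sqrt n' := by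
      rw [Nat.le_sqrt']
      exact Nat.minFac_sq_le_self (by omega) h
    omega
  refine ⟨fin, ?_, ?_⟩
  · by_cases h : Nat.Prime n'
    · exact Or.inl h
    · exact Or.inr (hnp h)
  · intro hp2
    by_cases h : Nat.Prime n'
    · by_cases h2 : Nat.Prime (((n' + 1) ^ p - 1) / n')
      · exact Or.inl ⟨h, h2⟩
      · right
        have hq : ((n' + 1) ^ p - 1) / n' = n' + 2 := by
          rw [hp2]
          have : (n' + 1) ^ 2 - 1 = n' * (n' + 2) := by
            have : (n' + 1) ^ 2 = n' * (n' + 2) + 1 := by ring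
            omega
          rw [this]
          exact Nat.mul_div_cancel_left _ (by omega)
        have h3 := fin (Nat.minFac (((n' + 1) ^ p - 1) / n'))
          (Nat.minFac_prime (by rw [hq]; omega)) (Or.inr (Nat.minFac_dvd _))
        have h4 : Nat.minFac (((n' + 1) ^ p - 1) / n') ≤ Nat.sqrt (n' + 2) := by
          rw [Nat.le_sqrt']
          have := Nat.minFac_sq_le_self (n := ((n' + 1) ^ p - 1) / n') (by rw [hq]; omega) h2
          rw [hq] at this ⊢
          exact this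
        omega
    · right
      have h1 := hnp h
      have h2 : Nat.sqrt n' ≤ Nat.sqrt (n' + 2) := Nat.sqrt_le_sqrt (by omega)
      omega

end Pool.Agent.Results.MP_e7655a_nt.LongDescent
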