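import Mathlib
import Pool.Agent.Results.MP_e7655a_nt.LongDescent

set_option autoImplicit false

namespace Pool.Agent.Results.MP_e7655a_nt.NearMaximalDescent

theorem nmd_sum (x k : ℕ) :
    ∑ i ∈ Finset.range (k + 3), x ^ i + x ≤ (x + 1) ^ (k + 2) := by
  induction k with
  | zero => simp [Finset.sum_range_succ]; nlinarith
  | succ k ih =>
    have h1 : ∑ i ∈ Finset.range (k + 1 + 3), x ^ i =
        x * ∑ i ∈ Finset.range (k + 3), x ^ i + 1 := by
      rw [Finset.sum_range_succ' _ (k + 3), Finset.mul_sum]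
      simp [pow_succ, mul_comm]
    have h2 : 1 ≤ ∑ i ∈ Finset.range (k + 3), x ^ i := by
      have := Finset.single_le_sum (f := fun i => x ^ i) (s := Finset.range (k + 3))
        (fun i _ => Nat.zero_le _) (Finset.mem_range.mpr (show 0 < k + 3 by omega))
      simpa using this
    have h3 : (x + 1) ^ (k + 1 + 2) = (x + 1) * (x + 1) ^ (k + 2) := by
      rw [show k + 1 + 2 = (k + 2) + 1 by ring, pow_succ, mul_comm]
    rw [h1, h3]
    set s := ∑ i ∈ Finset.range (k + 3), x ^ i with hs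
    calc x * s + 1 + x ≤ (x + 1) * (s + x) := by nlinarith
      _ ≤ (x + 1) * (x + 1) ^ (k + 2) := Nat.mul_le_mul_left _ ih

theorem nmd_q (m p : ℕ) (hm : 1 ≤ m) :
    ((m + 1) ^ p - 1) / m = ∑ i ∈ Finset.range p, (m + 1) ^ i := by
  have h := Nat.geomSum_eq (m := m + 1) (by omega) p
  rw [h, Nat.add_sub_cancel]

/-- if `q = 1 + x + ... + x^(k+2)`, `x = m + 1`, has at least `k + 2` prime factors, then it has a
prime factor `r = m + 1 - j` with `(j + 1)^(k + 2) >= m + 1` -/
theorem nmd_factor (m k : ℕ) (h : k + 2 ≤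
      (∑ i ∈ Finset.range (k + 3), (m + 1) ^ i).primeFactorsList.length) :
    ∃ r j : ℕ, r.Prime ∧ r ∣ ∑ i ∈ Finset.range (k + 3), (m + 1) ^ i ∧ r + j = m + 1 ∧
      m + 1 ≤ (j + 1) ^ (k + 2) := by
  set q := ∑ i ∈ Finset.range (k + 3), (m + 1) ^ i with hq
  have hq1 : q ≠ 1 := by
    intro h1
    rw [h1] at h
    simp at h
  have hq0 : q ≠ 0 := by
    intro h1
    rw [h1] at h
    simp at h
  have hr : (Nat.minFac q).Prime := Nat.minFac_prime hq1
  have hdvd : Nat.minFac q ∣ q := Nat.minFac_dvd q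
  have hpow : Nat.minFac q ^ q.primeFactorsList.length ≤ q := by
    conv_rhs => rw [← Nat.prod_primeFactorsList hq0]
    apply List.pow_card_le_prod
    intro x hx
    exact Nat.minFac_le_of_dvd (Nat.prime_of_mem_primeFactorsList hx).two_le
      (Nat.dvd_of_mem_primeFactorsList hx)
  set r := Nat.minFac q with hrdef
  have hpow2 : r ^ (k + 2) ≤ q := (Nat.pow_le_pow_right hr.pos h).trans hpow
  have h2 : r ≤ m + 1 := by
    by_contra hc
    push Not at hc
    have h3 : (m + 1 + 1) ^ (k + 2) ≤ r ^ (k + 2) := Nat.pow_le_pow_left hc _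
    have h4 := nmd_sum (m + 1) k
    rw [← hq] at h4
    omega
  obtain ⟨j, hj⟩ := Nat.exists_eq_add_of_le h2
  refine ⟨r, j, hr, hdvd, hj.symm, ?_⟩
  have h4 : r ∣ ∑ i ∈ Finset.range (k + 3), j ^ i := by
    have e1 : (q : ZMod r) = 0 := (ZMod.natCast_eq_zero_iff _ _).mpr hdvd
    rw [← ZMod.natCast_eq_zero_iff]
    rw [hq, hj] at e1
    push_cast at e1 ⊢
    simpa using e1
  have h5 := Nat.le_of_dvd (by
    have := Finset.single_le_sum (f := fun i => j ^ i) (s := Finset.range (k + 3))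
        (fun i _ => Nat.zero_le _) (Finset.mem_range.mpr (show 0 < k + 3 by omega))
    simp only [pow_zero] at this
    omega) h4
  have h6 := nmd_sum j k
  omega

/-- Consecutive zeros `n < n'` of `a_p`, `p` an odd prime. If the descent from `(n+1)^p - 1`
(after `n`) down to `0` (at `n'`) is almost maximal, namely `(J+1)^(p-1) < n' + 1` with
`J = (2 n + 3 + 3 D)/2`, `D = (n+1)^p - 1 - (n' - n - 1)` the loss, then `n'` is prime and
`q_p(n') = ((n'+1)^p - 1)/n'` has at most `p - 2` prime factors counted with multiplicity;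
for `p = 3` both `n'` and `q_3(n')` are prime. -/
theorem result :
    ∀ p : ℕ, p.Prime → 3 ≤ p → ∀ a : ℕ → ℤ, a 1 = 1 →
      (∀ n : ℕ, 2 ≤ n →
        a n = |a (n - 1) - ((Int.gcd (a (n - 1)) ((n : ℤ) ^ p - 1) : ℕ) : ℤ)|) →
      ∀ n n' : ℕ, 1 ≤ n → n < n' → a n = 0 → a n' = 0 → (∀ k : ℕ, n < k → k < n' → a k ≠ 0) →
        ((2 * n + 3 + 3 * ((n + 1) ^ p - 1) - 3 * (n' - n - 1)) / 2 + 1) ^ (p - 1) < n' + 1 →
        Nat.Prime n' ∧ (((n' + 1) ^ p - 1) / n').primeFactorsList.length ≤ p - 2 ∧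
          (p = 3 → Nat.Prime (((n' + 1) ^ p - 1) / n')) := by
  intro p hp hp3 a ha1 ha n n' hn hnn' han han' hne hlong
  obtain ⟨hfin, hprime, -⟩ := LongDescent.result p hp a ha1 ha n n' hn hnn' han han' hne
  obtain ⟨k, rfl⟩ : ∃ k, p = k + 3 := ⟨p - 3, by omega⟩
  have hq := nmd_q n' (k + 3) (by omega)
  have ek1 : k + 3 - 1 = k + 2 := by omega
  have ek2 : k + 3 - 2 = k + 1 := by omega
  rw [ek1] at hlong
  rw [ek2]
  rw [hq] at hfin ⊢
  generalize hW : (n + 1) ^ (k + 3) - 1 = W at *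
  obtain ⟨T, hT⟩ : ∃ T, n' = n + 1 + T := ⟨n' - n - 1, by omega⟩
  have hT' : n' - n - 1 = T := by omega
  rw [hT'] at hlong hprime
  simp only [hT'] at hfin
  obtain ⟨J, hJ⟩ : ∃ J, J = (2 * n + 3 + 3 * W - 3 * T) / 2 := ⟨_, rfl⟩
  rw [← hJ] at hlong
  have hJ2 : 2 * n + 2 + 3 * W ≤ 2 * J + 3 * T := by omega
  -- at most `k + 1` prime factors
  have hlen : (∑ i ∈ Finset.range (k + 3), (n' + 1) ^ i).primeFactorsList.length ≤ k + 1 := by
    by_contra hc
    push Not at hc
    obtain ⟨r, j, hr, hrd, hrj, hj⟩ := nmd_factor n' k hc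
    have h1 := hfin r hr (Or.inr hrd)
    have h2 : j ≤ J := by omega
    have h3 : (j + 1) ^ (k + 2) ≤ (J + 1) ^ (k + 2) := Nat.pow_le_pow_left (by omega) _
    omega
  refine ⟨?_, hlen, ?_⟩
  · rcases hprime with h | h
    · exact h
    · exfalso
      have h1 : (J + 1) ^ 2 ≤ (J + 1) ^ (k + 2) := Nat.pow_le_pow_right (by omega) (by omega)
      have h2 : Nat.sqrt n' ^ 2 ≤ n' := Nat.sqrt_le' _
      generalize Nat.sqrt n' = s at *
      have h3 : (J + 1) ^ 2 ≤ n + 1 + T := by omega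
      have h4 : s ^ 2 ≤ n + 1 + T := by omega
      have h5 : 2 * T + 2 * n + 4 < 2 * (J + 1) + 2 * s := by omega
      zify at h3 h4 h5
      nlinarith [sq_nonneg ((s : ℤ) - 1), sq_nonneg ((J : ℤ))]
  · intro hk
    have hk0 : k = 0 := by omega
    subst hk0
    set q := ∑ i ∈ Finset.range (0 + 3), (n' + 1) ^ i with hqd
    have hq2 : 2 ≤ q := by
      rw [hqd]
      simp [Finset.sum_range_succ]
      nlinarith
    by_contra hnp
    have hr : (Nat.minFac q).Prime := Nat.minFac_prime (by omega)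
    have hlen2 : q.primeFactorsList.length = 0 ∨ q.primeFactorsList.length = 1 := by omega
    rcases hlen2 with h | h
    · have h1 := List.length_eq_zero_iff.mp h
      rw [Nat.primeFactorsList_eq_nil] at h1
      omega
    · obtain ⟨x, hx⟩ := List.length_eq_one_iff.mp h
      have h1 := Nat.prod_primeFactorsList (n := q) (by omega)
      rw [hx] at h1
      simp at h1
      have h2 : x ∈ q.primeFactorsList := by rw [hx]; simp
      have h3 := Nat.prime_of_mem_primeFactorsList h2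
      rw [h1] at h3
      exact hnp h3

end Pool.Agent.Results.MP_e7655a_nt.NearMaximalDescent
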